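import Pool.Agent.H97.EM.Gr.Fin

/-! Greedy construction: every formula is decided. -/

namespace Pool.Agent.H97.EM.Gr

open Pool.Agent.H97.EM Classical

variable {K : Str} {Z : List ℕ} {T : Set Fml}

/-- If the length is bounded then it is constant from some stage on; then every stage is an
action of a level at most `nv ..`, which is constant, against `act_fin_le`. -/
theorem len_unbounded (hT : ∀ φ ∈ T, φ.fv = ∅) (hK : IsModel K T) (hf : Full T K) (hZ : Z ≠ [])
    (n : ℕ) : ∃ s, n ≤ (run K Z s).2.length := by
  by_contra hcon
  push Not at hcon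
  obtain ⟨s₀, hs₀⟩ := act_fin_le hT hK hf hZ (Z.length + n + 1)
  have hund : ∀ s, s₀ ≤ s → ¬ Und K Z (run K Z s) := by
    intro s hs hu
    have hg := srch_good (exists_good hZ (val_run hZ s) hu)
    refine hs₀ s hs (srch K Z (run K Z s)).1 ?_ ⟨hu, rfl⟩
    have h1 : (srch K Z (run K Z s)).1 ≤ nv Z.length (run K Z s) := hg.1.2
    have h2 := hcon s
    unfold nv at h1
    omega
  have hlen : ∀ j, (run K Z (s₀ + j)).2.length = (run K Z s₀).2.length + j := by
    intro j
    induction j with
    | zero => rfl
    | succ j ih =>
      have h1 : run K Z (s₀ + (j + 1)) = step K Z (run K Z (s₀ + j)) := rfl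
      rw [h1]
      unfold step
      rw [if_neg (hund _ (Nat.le_add_right _ _))]
      simp only [List.length_append, List.length_singleton]
      rw [ih]
      omega
  have h1 := hcon (s₀ + n)
  rw [hlen n] at h1
  omega

end Pool.Agent.H97.EM.Gr
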