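import Pool.Agent.H97.EM.Gr.Cmp1
import Pool.Agent.H97.EM.Gr.Len

/-! Greedy construction: the limit is computable. -/

namespace Pool.Agent.H97.EM.Gr

open Pool.Agent.H97.EM Classical

variable {K : Str} {Z : List ℕ} {T : Set Fml}

/-- Search for `n` with: `p` is not valid or `Und` fails or the triple number `n` is good
(`find_comp`, `exists_good`). -/
theorem step_comp (hK : CompStr K) (hZ : Z ≠ []) :
    ∃ st : St → St, Computable st ∧ ∀ p, Val K Z p → st p = step K Z p := by
  obtain ⟨fv, hfv, hfv'⟩ := comp_decide (val_comp (Z := Z) hK)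
  obtain ⟨fu, hfu, hfu'⟩ := comp_decide (und_comp (Z := Z) hK)
  obtain ⟨fg, hfg, hfg'⟩ := comp_decide (good_comp (Z := Z) hK)
  have hnv := nv_comp Z.length
  have hbit := bit_comp (Z := Z) hK
  obtain ⟨P, hP⟩ : ∃ P : St → ℕ → Bool, P = fun p n =>
      (!(fv p && fu p)) || fg (p, Denumerable.ofNat (ℕ × ℕ × List ℕ) n) := ⟨_, rfl⟩
  have hPc : Computable₂ P := by
    rw [hP]
    have h1 : Computable fun x : St × ℕ => (fv x.1 && fu x.1) :=
      Primrec.and.to_comp.comp (hfv.comp Computable.fst) (hfu.comp Computable.fst)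
    have h2 : Computable fun x : St × ℕ => !(fv x.1 && fu x.1) := Primrec.not.to_comp.comp h1
    have h3 : Computable fun x : St × ℕ => fg (x.1, Denumerable.ofNat (ℕ × ℕ × List ℕ) x.2) :=
      hfg.comp (Computable.pair Computable.fst ((Computable.ofNat (ℕ × ℕ × List ℕ)).comp Computable.snd))
    exact Primrec.or.to_comp.comp h2 h3
  have hex : ∀ p, ∃ n, P p n = true := by
    intro p
    by_cases h : Val K Z p ∧ Und K Z p
    · obtain ⟨m, c, E, hg⟩ := exists_good hZ h.1 h.2
      refine ⟨Encodable.encode (m, c, E), ?_⟩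
      rw [hP]
      have h1 : fg (p, Denumerable.ofNat (ℕ × ℕ × List ℕ) (Encodable.encode (m, c, E))) = true := by
        rw [Denumerable.ofNat_encode, hfg']
        exact hg
      simp only [h1, Bool.or_true]
    · refine ⟨0, ?_⟩
      rw [hP]
      have h1 : (fv p && fu p) = false := by
        rw [Bool.and_eq_false_iff]
        by_contra hcon
        push Not at hcon
        exact h ⟨(hfv' p).1 (by simpa using hcon.1), (hfu' p).1 (by simpa using hcon.2)⟩
      simp only [h1, Bool.not_false, Bool.true_or]
  have hF := find_comp hPc hex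
  have hsr : Computable fun p => Denumerable.ofNat (ℕ × ℕ × List ℕ) (Nat.find (hex p)) :=
    (Computable.ofNat (ℕ × ℕ × List ℕ)).comp hF
  have hsrch : ∀ p, Val K Z p → Und K Z p →
      Denumerable.ofNat (ℕ × ℕ × List ℕ) (Nat.find (hex p)) = srch K Z p := by
    intro p hv hu
    have key : ∀ n, P p n = true ↔ Good K Z p (Denumerable.ofNat (ℕ × ℕ × List ℕ) n).1
        (Denumerable.ofNat (ℕ × ℕ × List ℕ) n).2.1 (Denumerable.ofNat (ℕ × ℕ × List ℕ) n).2.2 := by
      intro n
      rw [← hfg' (p, Denumerable.ofNat (ℕ × ℕ × List ℕ) n), hP]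
      simp only [(hfv' p).2 hv, (hfu' p).2 hu, Bool.and_self, Bool.not_true, Bool.false_or]
    have h1 : ∃ n, Good K Z p (Denumerable.ofNat (ℕ × ℕ × List ℕ) n).1
        (Denumerable.ofNat (ℕ × ℕ × List ℕ) n).2.1 (Denumerable.ofNat (ℕ × ℕ × List ℕ) n).2.2 := by
      obtain ⟨n, hn⟩ := hex p
      exact ⟨n, (key n).1 hn⟩
    unfold srch
    rw [dif_pos h1]
    congr 1
    refine le_antisymm ?_ ?_
    · exact Nat.find_min' _ ((key _).2 (Nat.find_spec h1))
    · exact Nat.find_min' _ ((key _).1 (Nat.find_spec (hex p)))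
  obtain ⟨fe, hfe, hfe'⟩ := comp_decide (ev_comp hK
    (f := fun t : ℕ × ℕ × List ℕ => chi t.1 t.2.1) (g := fun t : ℕ × ℕ × List ℕ => t.2.2)
    (chi_comp.comp Computable.fst (Computable.fst.comp Computable.snd)) (Computable.snd.comp Computable.snd))
  obtain ⟨sr, hsrd⟩ : ∃ sr : St → ℕ × ℕ × List ℕ, sr = fun p =>
    Denumerable.ofNat (ℕ × ℕ × List ℕ) (Nat.find (hex p)) := ⟨_, rfl⟩
  have hsrc : Computable sr := by rw [hsrd]; exact hsr
  have hand : Computable₂ Fml.and := and_primrec.to_comp
  have hlit : Computable₂ lit := lit_primrec.to_comp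
  refine ⟨fun p => cond (fu p)
    (p.1.and (lit (!(fe (sr p))) (chi (sr p).1 (sr p).2.1)), p.2)
    ((p.1.and (lit (bit K Z p) (nxt p))).and (hk (bit K Z p) (nxt p) (nv Z.length p)),
      p.2 ++ [bit K Z p]), ?_, ?_⟩
  · refine Computable.cond hfu ?_ ?_
    · refine Computable.pair ?_ Computable.snd
      refine hand.comp Computable.fst (hlit.comp (Primrec.not.to_comp.comp (hfe.comp hsrc)) ?_)
      exact chi_comp.comp (Computable.fst.comp hsrc) (Computable.fst.comp (Computable.snd.comp hsrc))
    · refine Computable.pair ?_ ?_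
      · refine hand.comp (hand.comp Computable.fst (hlit.comp hbit nxt_comp)) ?_
        exact hk_comp.comp (Computable.pair hbit (Computable.pair nxt_comp hnv))
      · exact Computable.list_append.comp Computable.snd
          (Computable.list_cons.comp hbit (Computable.const []))
  · intro p hv
    unfold step
    by_cases hu : Und K Z p
    · rw [if_pos hu]
      have h1 : sr p = srch K Z p := by
        rw [hsrd]
        exact hsrch p hv hu
      have h2 : fe (srch K Z p) = decide (Ev K (chi (srch K Z p).1 (srch K Z p).2.1) (srch K Z p).2.2) := by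
        rw [Bool.eq_iff_iff, hfe', decide_eq_true_iff]
      simp only [(hfu' p).2 hu, cond_true, h1, h2, act]
    · rw [if_neg hu]
      have h1 : fu p = false := by
        rw [← Bool.not_eq_true]
        exact fun h => hu ((hfu' p).1 h)
      simp only [h1, cond_false]

theorem run_comp (hK : CompStr K) (hZ : Z ≠ []) : Computable fun s => run K Z s := by
  obtain ⟨st, hst, h⟩ := step_comp hK hZ
  have h1 : Computable fun s : ℕ => (Nat.rec (motive := fun _ => St) (top, []) (fun _ ih => st ih) s : St) := by
    refine Computable.nat_rec (f := fun s : ℕ => s) (g := fun _ => ((top, []) : St))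
      (h := fun _ (q : ℕ × St) => st q.2) Computable.id (Computable.const _) ?_
    exact (hst.comp (Computable.snd.comp Computable.snd)).to₂
  refine h1.of_eq fun s => ?_
  induction s with
  | zero => rfl
  | succ s ih =>
    have h2 := h _ (val_run (K := K) hZ s)
    show st _ = step K Z (run K Z s)
    rw [ih, h2]

/-- Search for a stage with a long decision list (`len_unbounded`). -/
theorem gam_comp (hT : ∀ φ ∈ T, φ.fv = ∅) (hK : IsModel K T) (hKc : CompStr K) (hf : Full T K)
    (hZ : Z ≠ []) : ComputablePred fun φ => φ ∈ Gam K Z := by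
  have hrun := run_comp (Z := Z) hKc hZ
  have hlen : Computable fun x : Fml × ℕ => (run K Z x.2).2.length :=
    Computable.list_length.comp (Computable.snd.comp (hrun.comp Computable.snd))
  have hP : Computable₂ fun (φ : Fml) (s : ℕ) => decide (Encodable.encode φ < (run K Z s).2.length) := by
    have h1 : Computable₂ fun a b : ℕ => decide (a < b) := Primrec.nat_lt.decide.to_comp
    exact h1.comp (Computable.encode.comp Computable.fst) hlen
  have hex : ∀ φ : Fml, ∃ s, decide (Encodable.encode φ < (run K Z s).2.length) = true := by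
    intro φ
    obtain ⟨s, hs⟩ := len_unbounded hT hK hf hZ (Encodable.encode φ + 1)
    exact ⟨s, decide_eq_true_iff.2 hs⟩
  have hF := find_comp hP hex
  refine compPred_of (f := fun φ => (run K Z (Nat.find (hex φ))).2.getD (Encodable.encode φ) false) ?_ ?_
  · have h1 : Computable₂ fun (l : List Bool) (n : ℕ) => l.getD n false := (Primrec.list_getD false).to_comp
    exact h1.comp (Computable.snd.comp (hrun.comp hF)) Computable.encode
  · intro φ
    have h1 := decide_eq_true_iff.1 (Nat.find_spec (hex φ))
    constructor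
    · intro h2
      exact ⟨_, h1, h2⟩
    · rintro ⟨s, h2, h3⟩
      have h4 := (run_getD (K := K) (Z := Z) (le_max_left s (Nat.find (hex φ))) h2).2
      have h5 := (run_getD (K := K) (Z := Z) (le_max_right s (Nat.find (hex φ))) h1).2
      rw [← h5, h4]
      exact h3

end Pool.Agent.H97.EM.Gr
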