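import Pool.Agent.H97.EM.Gr.Atm
import Pool.Agent.H97.EM.Gr.Cmp2
import Pool.Agent.H97.EM.Hen2b
import Pool.Agent.H97.EM.Enu

/-! Decidable atomic models over realisations of all types. -/

namespace Pool.Agent.H97.EM

open Gr in
theorem exists_atomic {T : Set Fml} {K : Str} (hT : ∀ φ ∈ T, φ.fv = ∅) (hK : IsModel K T)
    (hKc : CompStr K) (hfull : Full T K) (M : Str) (hM : IsModel M T) (a : List ℕ)
    (ha : a ≠ []) : ∃ (B : Str) (bb : List ℕ), IsModel B T ∧ CompStr B ∧ TE M a B bb ∧
      Atomic B bb := by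
  obtain ⟨Z, hte⟩ := hfull M hM a ha
  have hZ : Z ≠ [] := by
    intro h; have := hte.2.1; rw [h] at this
    exact ha (List.length_eq_zero_iff.1 (by simpa using this))
  have hH := gam_hen hT hK hfull hZ
  obtain ⟨B0, e, he, hB0⟩ := hH.model
  have hc : ComputablePred fun φ : Fml => Sat B0 φ e := by
    have := gam_comp hT hK hKc hfull hZ
    refine ComputablePred.of_eq this fun φ => hB0 φ
  obtain ⟨B, hi, hBc⟩ := enum_dec he hc
  have hte0 := te_gam hT hK hfull hZ hB0
  have hat := atomic_gam hT hK hfull hZ he hB0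
  have hmod : IsModel B0 T := hH.isModel hT hK hB0
  obtain ⟨σ, hσ⟩ := hi
  have hne : (List.range Z.length).map e ≠ [] := by
    intro h
    have := congrArg List.length h
    simp at this
    exact hZ this
  exact ⟨B, ((List.range Z.length).map e).map σ, isModel_iso ⟨σ, hσ⟩ hmod, hBc,
    (hte.trans hte0).trans (te_iso hσ hne), hat.iso hne hσ⟩

end Pool.Agent.H97.EM
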