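import Pool.Agent.H97.EM.Gr.Len
import Pool.Agent.H97.EM.HenD

/-! Greedy construction: the limit is a Henkin set. -/

namespace Pool.Agent.H97.EM.Gr

open Pool.Agent.H97.EM Classical

variable {K : Str} {Z : List ℕ} {T : Set Fml}

private theorem run_und {s : ℕ} (hu : Und K Z (run K Z s)) :
    (run K Z (s + 1)).2 = (run K Z s).2 := by
  change (step K Z (run K Z s)).2 = _
  unfold step
  rw [if_pos hu]

private theorem run_dec {s : ℕ} (hu : ¬ Und K Z (run K Z s)) :
    run K Z (s + 1) = (((run K Z s).1.and (lit (bit K Z (run K Z s)) (nxt (run K Z s)))).and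
      (hk (bit K Z (run K Z s)) (nxt (run K Z s)) (nv Z.length (run K Z s))),
      (run K Z s).2 ++ [bit K Z (run K Z s)]) := by
  change step K Z (run K Z s) = _
  unfold step
  rw [if_neg hu]

private theorem getD_app {l : List Bool} {b : Bool} {c : ℕ} (hc : c < l.length) :
    (l ++ [b]).getD c false = l.getD c false := by
  rw [List.getD_append _ _ _ _ hc]

private theorem getD_last (l : List Bool) (b : Bool) : (l ++ [b]).getD l.length false = b := by
  rw [List.getD_append_right _ _ _ _ le_rfl, Nat.sub_self]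
  rfl

private theorem sat_lit {b : Bool} {φ : Fml} {v : ℕ → ℕ} (h : Sat K (lit b φ) v) :
    b = true ↔ Sat K φ v := by
  cases b with
  | true => exact ⟨fun _ => h, fun _ => rfl⟩
  | false => exact ⟨fun h1 => absurd h1 Bool.false_ne_true, fun h1 => absurd h1 h⟩

/-- The decisions are consequences of `δ` (induction on `s`). -/
theorem dec_imp {s c : ℕ} (hc : c < (run K Z s).2.length) {v : ℕ → ℕ}
    (hv : Sat K (run K Z s).1 v) :
    ((run K Z s).2.getD c false = true ↔ Sat K (Denumerable.ofNat Fml c) v) := by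
  induction s with
  | zero => exact absurd hc (Nat.not_lt_zero c)
  | succ s ih =>
    have hv' : Sat K (run K Z s).1 v := step_imp _ v hv
    by_cases hu : Und K Z (run K Z s)
    · rw [run_und hu] at hc ⊢
      exact ih hc hv'
    · rw [run_dec hu] at hc hv ⊢
      simp only at hc hv ⊢
      rw [List.length_append, List.length_singleton] at hc
      rcases Nat.lt_or_ge c (run K Z s).2.length with h1 | h1
      · rw [getD_app h1]
        exact ih h1 hv'
      · have h2 : c = (run K Z s).2.length := by omega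
        subst h2
        rw [getD_last]
        exact sat_lit hv.1.2

/-- The Henkin formulas are consequences of `δ` (induction on `s`). -/
theorem hk_imp {s c i : ℕ} {φ : Fml} (hc : c < (run K Z s).2.length)
    (hd : (run K Z s).2.getD c false = true) (hφ : Denumerable.ofNat Fml c = Fml.ex i φ)
    {v : ℕ → ℕ} (hv : Sat K (run K Z s).1 v) :
    Sat K (Fml.ex i (.and (.eq i (Z.length + c + 1)) φ)) v := by
  induction s with
  | zero => exact absurd hc (Nat.not_lt_zero c)
  | succ s ih =>
    have hv' : Sat K (run K Z s).1 v := step_imp _ v hv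
    by_cases hu : Und K Z (run K Z s)
    · rw [run_und hu] at hc hd
      exact ih hc hd hv'
    · rw [run_dec hu] at hc hd hv
      simp only at hc hd hv
      rw [List.length_append, List.length_singleton] at hc
      rcases Nat.lt_or_ge c (run K Z s).2.length with h1 | h1
      · rw [getD_app h1] at hd
        exact ih h1 hd hv'
      · have h2 : c = (run K Z s).2.length := by omega
        subst h2
        rw [getD_last] at hd
        have h3 := hv.2
        rw [hd] at h3
        have h4 : nxt (run K Z s) = Fml.ex i φ := hφ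
        rw [h4] at h3
        exact h3

theorem mem_gam (hT : ∀ φ ∈ T, φ.fv = ∅) (hK : IsModel K T) (hf : Full T K) (hZ : Z ≠ [])
    (φ : Fml) : φ ∈ Gam K Z ↔ ∃ s, ∀ v, Sat K (run K Z s).1 v → Sat K φ v := by
  constructor
  · rintro ⟨s, h1, h2⟩
    refine ⟨s, fun v hv => ?_⟩
    have h3 := (dec_imp h1 hv).1 h2
    rwa [Denumerable.ofNat_encode] at h3
  · rintro ⟨s, hs⟩
    obtain ⟨t, ht⟩ := len_unbounded hT hK hf hZ (Encodable.encode φ + 1)
    obtain ⟨u, hu⟩ : ∃ u, u = max s t := ⟨_, rfl⟩
    have hsu : s ≤ u := hu ▸ le_max_left s t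
    have htu : t ≤ u := hu ▸ le_max_right s t
    have h1 := (run_getD htu (show Encodable.encode φ < (run K Z t).2.length by omega)).1
    obtain ⟨w, -, hw⟩ := (con_iff hZ _ _).1 (val_run (K := K) hZ u).2
    refine ⟨u, h1, ?_⟩
    rw [dec_imp h1 hw, Denumerable.ofNat_encode]
    exact hs _ (run_imp hsu hw)

/-- For `wit`: `j = Z.length + c + 1` with `c` the code of `∃ x_i φ`, and `i ≤ c`. -/
theorem gam_hen (hT : ∀ φ ∈ T, φ.fv = ∅) (hK : IsModel K T) (hf : Full T K) (hZ : Z ≠ []) :
    Hen K (Gam K Z) := by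
  have hsat : ∀ s, ∃ v, Sat K (run K Z s).1 v := by
    intro s
    obtain ⟨w, -, hw⟩ := (con_iff hZ _ _).1 (val_run (K := K) hZ s).2
    exact ⟨_, hw⟩
  refine ⟨?_, ?_, ?_⟩
  · intro F hF
    have key : ∃ s, ∀ φ ∈ F, ∀ v, Sat K (run K Z s).1 v → Sat K φ v := by
      induction F with
      | nil => exact ⟨0, fun φ hφ => absurd hφ List.not_mem_nil⟩
      | cons ψ F ih =>
        obtain ⟨s, hs⟩ := ih fun φ hφ => hF φ (List.mem_cons_of_mem _ hφ)
        obtain ⟨t, ht⟩ := (mem_gam hT hK hf hZ ψ).1 (hF ψ List.mem_cons_self)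
        refine ⟨max s t, fun φ hφ v hv => ?_⟩
        rcases List.mem_cons.1 hφ with rfl | h1
        · exact ht v (run_imp (le_max_right s t) hv)
        · exact hs φ h1 v (run_imp (le_max_left s t) hv)
    obtain ⟨s, hs⟩ := key
    obtain ⟨v, hv⟩ := hsat s
    exact ⟨v, fun φ hφ => hs φ hφ v hv⟩
  · intro φ
    obtain ⟨t, ht⟩ := len_unbounded hT hK hf hZ (Encodable.encode φ + 1)
    have h1 : Encodable.encode φ < (run K Z t).2.length := by omega
    by_cases h2 : (run K Z t).2.getD (Encodable.encode φ) false = true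
    · exact Or.inl ⟨t, h1, h2⟩
    · right
      rw [mem_gam hT hK hf hZ]
      refine ⟨t, fun v hv => ?_⟩
      intro h3
      apply h2
      rw [dec_imp h1 hv, Denumerable.ofNat_encode]
      exact h3
  · rintro i φ ⟨s, h1, h2⟩
    refine ⟨Z.length + Encodable.encode (Fml.ex i φ) + 1, ?_, ?_⟩
    · have h3 : i ≤ Encodable.encode (Fml.ex i φ) := by
        rw [encode_eq]
        simp only [Fml.enc]
        have h4 := Nat.left_le_pair i φ.enc
        omega
      omega
    · rw [mem_gam hT hK hf hZ]
      exact ⟨s, fun v hv => hk_imp h1 h2 (Denumerable.ofNat_encode _) hv⟩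

end Pool.Agent.H97.EM.Gr
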