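import Pool.Agent.H97.EM.Gr.Cst
import Pool.Agent.H97.EM.Gr.Dec
import Pool.Agent.H97.EM.AtC

/-! Greedy construction: the model is atomic over the tuple. -/

namespace Pool.Agent.H97.EM.Gr

open Pool.Agent.H97.EM Classical

variable {K B : Str} {Z : List ℕ} {T : Set Fml} {e : ℕ → ℕ}

private theorem ev_range {φ : Fml} {m : ℕ} (hφ : ∀ i ∈ φ.fv, i < m) :
    Ev B φ ((List.range m).map e) ↔ Sat B φ e := by
  refine ev_of_sat (fun i hi => ?_) (by simpa using hφ)
  rw [List.getD_eq_getElem _ _ hi]
  simp

/-- `te_of_holds`: if `φ` holds at `Z` and is not in the limit then some `δ_s` implies its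
negation, but `δ_s` is consistent over `Z`. -/
theorem te_gam (hT : ∀ φ ∈ T, φ.fv = ∅) (hK : IsModel K T) (hf : Full T K) (hZ : Z ≠ [])
    (hB : ∀ φ, φ ∈ Gam K Z ↔ Sat B φ e) : TE K Z B ((List.range Z.length).map e) := by
  refine te_of_holds hZ (by simp) (fun φ hφ hev => ?_)
  rw [ev_range hφ, ← hB]
  by_contra hn
  rw [← (gam_hen hT hK hf hZ).neg_iff, mem_gam hT hK hf hZ] at hn
  obtain ⟨s, hs⟩ := hn
  obtain ⟨w, -, hw⟩ := (con_iff hZ _ _).1 (val_run (K := K) hZ s).2
  exact hs _ hw ((ev_append hφ w).2 hev)

/-- The formula `θ = rs m (nv ..) (run K Z s₁).1` of `const` isolates `(e 0, .., e (m-1))` over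
`(e 0, .., e (k-1))`: for every `φ` with variables below `m` some `δ_s`, `s ≥ s₁`, decides `φ`,
so `∀ x_k .. x_(m-1) (θ → ± φ)` holds in `K` at `Z`, hence in `B` by `te_gam`. -/
theorem isolates (hT : ∀ φ ∈ T, φ.fv = ∅) (hK : IsModel K T) (hf : Full T K) (hZ : Z ≠ [])
    (hB : ∀ φ, φ ∈ Gam K Z ↔ Sat B φ e) {m : ℕ} (hm : Z.length < m) :
    ∃ θ : Fml, Ev B θ ((List.range m).map e) ∧ ∀ W : List ℕ, W.length = m - Z.length →
      Ev B θ ((List.range Z.length).map e ++ W) →
      TE B ((List.range Z.length).map e ++ W) B ((List.range m).map e) := by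
  obtain ⟨s₁, hs₁⟩ := const hT hK hf hZ hm
  have hZ0 : 0 < Z.length := List.length_pos_iff.2 hZ
  have hfθ := fv_rs (val_run (K := K) hZ s₁).1 m
  have hbb : (List.range Z.length).map e ≠ [] := by
    intro h
    have h1 := congrArg List.length h
    simp only [List.length_map, List.length_range, List.length_nil] at h1
    omega
  refine ⟨rs m (nv Z.length (run K Z s₁)) (run K Z s₁).1, ?_, ?_⟩
  · rw [ev_range hfθ, ← hB, mem_gam hT hK hf hZ]
    exact ⟨s₁, fun v hv => sat_rs_of_sat _ _ hv⟩
  · intro W hW hθ
    have hl : ((List.range Z.length).map e ++ W).length = m := by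
      simp only [List.length_append, List.length_map, List.length_range]
      omega
    refine te_of_holds (by
      intro h
      rw [h, List.length_nil] at hl
      omega) (by rw [hl]; simp) (fun φ hφ hev => ?_)
    rw [hl] at hφ
    rw [ev_range hφ, ← hB]
    by_contra hn
    rw [← (gam_hen hT hK hf hZ).neg_iff, mem_gam hT hK hf hZ] at hn
    obtain ⟨s, hs⟩ := hn
    have hK' : ¬ Ev K (exs Z.length (m - Z.length)
        ((rs m (nv Z.length (run K Z s₁)) (run K Z s₁).1).and φ)) Z := by
      rw [ev_exs K Z hZ]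
      rintro ⟨w', hw', h1, h2⟩
      have h3 := hs₁ (max s s₁) (le_max_right _ _) w' hw' h1
      have hl' : (Z ++ w').length = m := by
        rw [List.length_append]; omega
      have hne : Z ++ w' ≠ [] := by
        intro h
        rw [h, List.length_nil] at hl'
        omega
      have h4 := (ev_rs (K := K) hne (nv Z.length (run K Z (max s s₁)))
        (run K Z (max s s₁)).1)
      rw [hl'] at h4
      obtain ⟨u, -, hu⟩ := h4.1 h3
      have h5 := run_imp (le_max_left s s₁) hu
      exact hs _ h5 ((ev_append (by rw [hl']; exact hφ) u).2 h2)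
    apply hK'
    rw [(te_gam hT hK hf hZ hB).2.2]
    have h6 := ev_exs B ((List.range Z.length).map e) hbb (m - Z.length)
      ((rs m (nv Z.length (run K Z s₁)) (run K Z s₁).1).and φ)
    rw [List.length_map, List.length_range] at h6
    rw [h6]
    exact ⟨W, hW, hθ, hev⟩

/-- `atomic_of_cofinal`: `(e 0, .., e (m-1)) = bb ++ W`, `e` is onto. -/
theorem atomic_gam (hT : ∀ φ ∈ T, φ.fv = ∅) (hK : IsModel K T) (hf : Full T K) (hZ : Z ≠ [])
    (he : Function.Surjective e) (hB : ∀ φ, φ ∈ Gam K Z ↔ Sat B φ e) :
    Atomic B ((List.range Z.length).map e) := by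
  have hZ0 : 0 < Z.length := List.length_pos_iff.2 hZ
  have hbb : (List.range Z.length).map e ≠ [] := by
    intro h
    have h1 := congrArg List.length h
    simp only [List.length_map, List.length_range, List.length_nil] at h1
    omega
  refine atomic_of_cofinal hbb (fun Y => ?_)
  choose g hg using he
  set m : ℕ := Z.length + 1 + (Y.map g).sum with hmdef
  have hm : Z.length < m := by omega
  have hlt : ∀ j ∈ Y.map g, j < m := by
    intro j hj
    have h1 := List.single_le_sum (l := Y.map g) (fun x _ => Nat.zero_le x) j hj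
    omega
  have hsplit : (List.range m).map e =
      (List.range Z.length).map e ++ (List.range (m - Z.length)).map fun i => e (Z.length + i) := by
    have h1 : m = Z.length + (m - Z.length) := by omega
    conv_lhs => rw [h1, List.range_add, List.map_append, List.map_map]
    rfl
  obtain ⟨θ, h1, h2⟩ := isolates hT hK hf hZ hB hm
  refine ⟨(List.range (m - Z.length)).map fun i => e (Z.length + i), Y.map g, ?_, ?_, θ, ?_, ?_⟩
  · rw [← hsplit]
    simpa using hlt
  · rw [← hsplit]
    unfold pick
    rw [List.map_map]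
    conv_rhs => rw [← List.map_id Y]
    apply List.map_congr_left
    intro y hy
    have h3 := hlt (g y) (List.mem_map_of_mem hy)
    show ((List.range m).map e).getD (g y) 0 = id y
    rw [List.getD_eq_getElem _ _ (by simpa using h3)]
    simp [hg]
  · rw [← hsplit]; exact h1
  · intro W' hW'
    rw [← hsplit]
    apply h2
    rw [hW']
    simp

end Pool.Agent.H97.EM.Gr
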