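import Pool.Agent.H97.EM.Gr.Def

/-! Greedy construction: basic facts. -/

namespace Pool.Agent.H97.EM.Gr

open Pool.Agent.H97.EM Classical

/-- `ev_exs` with `a = E`. -/
theorem ev_rs {K : Str} {E : List ℕ} (hE : E ≠ []) (M : ℕ) (δ : Fml) :
    Ev K (rs E.length M δ) E ↔ ∃ w : List ℕ, w.length = M - E.length ∧ Ev K δ (E ++ w) := by
  unfold rs
  exact ev_exs K E hE (M - E.length) δ

theorem con_iff {K : Str} {Z : List ℕ} (hZ : Z ≠ []) (M : ℕ) (δ : Fml) :
    Con K Z M δ ↔ ∃ w : List ℕ, w.length = M - Z.length ∧ Ev K δ (Z ++ w) := by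
  unfold Con rs
  exact ev_exs K Z hZ (M - Z.length) δ

private theorem ext_of_lt {a : List ℕ} {i : ℕ} (hi : i < a.length) : ext a i = a.getD i 0 := by
  unfold ext
  rw [List.getD_eq_getElem _ _ hi, List.getD_eq_getElem _ _ hi]

/-- Only the first entries matter. -/
theorem ev_take {K : Str} {φ : Fml} {n : ℕ} (hφ : ∀ i ∈ φ.fv, i < n) {v : List ℕ}
    (hv : n ≤ v.length) : Ev K φ (v.take n) ↔ Ev K φ v := by
  unfold Ev
  refine sat_congr K φ _ _ fun i hi => ?_
  have h1 := hφ i hi
  have h2 : (v.take n).length = n := by rw [List.length_take]; omega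
  rw [ext_of_lt (by omega), ext_of_lt (by omega), List.getD_eq_getElem _ _ (by omega),
    List.getD_eq_getElem _ _ (by omega), List.getElem_take]

/-- The same in the form with `++`. -/
theorem ev_append {K : Str} {φ : Fml} {v : List ℕ} (hφ : ∀ i ∈ φ.fv, i < v.length)
    (w : List ℕ) : Ev K φ (v ++ w) ↔ Ev K φ v := by
  have h := ev_take (K := K) hφ (v := v ++ w) (by rw [List.length_append]; omega)
  rw [List.take_left] at h
  exact h.symm

/-- If `δ` (variables below `M`) holds at a long list then `rs m M δ` holds at its prefix of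
length `m`; the list may be shorter or longer than `m` or `M` as long as both are covered. -/
theorem rs_of_ev {K : Str} {δ : Fml} {m M : ℕ} (hδ : ∀ i ∈ δ.fv, i < M) (hm : 0 < m)
    {v : List ℕ} (h1 : M ≤ v.length) (h2 : m ≤ v.length) (h : Ev K δ v) :
    Ev K (rs m M δ) (v.take m) := by
  have hl : (v.take m).length = m := by rw [List.length_take]; omega
  have hne : v.take m ≠ [] := by
    intro h0
    rw [h0, List.length_nil] at hl
    omega
  have h3 := ev_rs (K := K) hne M δ
  rw [hl] at h3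
  rw [h3]
  refine ⟨(v.drop m).take (M - m), by rw [List.length_take, List.length_drop]; omega, ?_⟩
  rcases Nat.le_total m M with hmM | hmM
  · have h4 : v.take m ++ (v.drop m).take (M - m) = v.take M := by
      conv_rhs => rw [← Nat.add_sub_cancel' hmM]
      rw [List.take_add]
    rw [h4, ev_take hδ h1]
    exact h
  · rw [Nat.sub_eq_zero_of_le hmM, List.take_zero, List.append_nil,
      ev_take (fun i hi => Nat.lt_of_lt_of_le (hδ i hi) hmM) h2]
    exact h

theorem fv_rs {δ : Fml} {M : ℕ} (hδ : ∀ i ∈ δ.fv, i < M) (m : ℕ) :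
    ∀ i ∈ (rs m M δ).fv, i < m := by
  intro i hi
  unfold rs at hi
  rw [fv_exs] at hi
  have h1 := hδ i hi.1
  have h2 := hi.2
  omega

theorem fv_chi (m c : ℕ) : ∀ i ∈ (chi m c).fv, i < m := by
  intro i hi
  unfold chi at hi
  rw [fv_exs] at hi
  have h1 := fv_le _ i hi.1
  rw [Denumerable.encode_ofNat] at h1
  have h2 := hi.2
  omega

private theorem sat_exs_all {K : Str} {θ : Fml} {m k : ℕ} (hθ : ∀ i ∈ θ.fv, i < m + k)
    (v : ℕ → ℕ) :
    Sat K (exs m k θ) v ↔ ∃ u : ℕ → ℕ, Sat K θ (fun i => if m ≤ i then u i else v i) := by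
  rw [sat_exs]
  constructor
  · rintro ⟨w, hw, h⟩
    refine ⟨fun i => w.getD (i - m) 0, (sat_congr K θ _ _ fun i hi => ?_).1 h⟩
    have h1 := hθ i hi
    by_cases h2 : m ≤ i
    · rw [if_pos ⟨h2, h1⟩, if_pos h2]
    · rw [if_neg (fun h3 => h2 h3.1), if_neg h2]
  · rintro ⟨u, h⟩
    refine ⟨(List.range k).map fun j => u (m + j), by simp, (sat_congr K θ _ _ fun i hi => ?_).2 h⟩
    have h1 := hθ i hi
    by_cases h2 : m ≤ i
    · have h3 : i - m < ((List.range k).map fun j => u (m + j)).length := by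
        rw [List.length_map, List.length_range]
        omega
      rw [if_pos ⟨h2, h1⟩, if_pos h2, List.getD_eq_getElem _ _ h3, List.getElem_map,
        List.getElem_range, Nat.add_sub_cancel' h2]
    · rw [if_neg (fun h3 => h2 h3.1), if_neg h2]

/-- Both sides quantify all variables from `x_m` on. -/
theorem chi_rs {K : Str} {θ : Fml} {m M : ℕ} (hθ : ∀ i ∈ θ.fv, i < M) (v : ℕ → ℕ) :
    Sat K (chi m (Encodable.encode θ)) v ↔ Sat K (rs m M θ) v := by
  have h1 : chi m (Encodable.encode θ) = exs m (Encodable.encode θ + 1) θ := by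
    unfold chi
    rw [Denumerable.ofNat_encode]
  unfold rs
  rw [h1, sat_exs_all (fun i hi => by have := fv_le θ i hi; omega) v,
    sat_exs_all (fun i hi => by have := hθ i hi; omega) v]

/-- A formula implies its part of level `m`. -/
theorem sat_rs_of_sat {K : Str} {θ : Fml} (m M : ℕ) {v : ℕ → ℕ} (h : Sat K θ v) :
    Sat K (rs m M θ) v := by
  unfold rs
  rw [sat_exs]
  refine ⟨(List.range (M - m)).map fun j => v (m + j), by simp,
    (sat_congr K θ _ _ fun i _ => ?_).2 h⟩
  by_cases h2 : m ≤ i ∧ i < m + (M - m)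
  · have h3 : i - m < ((List.range (M - m)).map fun j => v (m + j)).length := by
      rw [List.length_map, List.length_range]
      omega
    rw [if_pos h2, List.getD_eq_getElem _ _ h3, List.getElem_map, List.getElem_range,
      Nat.add_sub_cancel' h2.1]
  · rw [if_neg h2]

/-- `chi m c` for formulas on `x_0, .., x_(m-1)`. -/
theorem chi_self {K : Str} {θ : Fml} {m : ℕ} (hθ : ∀ i ∈ θ.fv, i < m) (v : ℕ → ℕ) :
    Sat K (chi m (Encodable.encode θ)) v ↔ Sat K θ v := by
  rw [chi_rs hθ v]
  unfold rs exs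
  rw [Nat.sub_self]
  rfl

end Pool.Agent.H97.EM.Gr
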