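import Pool.Agent.H97.EM.Gr.Def
import Pool.Agent.H97.EM.Prim
import Pool.Agent.H97.EM.Find
import Pool.Agent.H97.EM.FvP

/-! Greedy construction: the conditions are computable. -/

namespace Pool.Agent.H97.EM.Gr

open Pool.Agent.H97.EM Classical

variable {K : Str} {Z : List ℕ}

private theorem cp_and {α : Type*} [Primcodable α] {p q : α → Prop} (hp : ComputablePred p)
    (hq : ComputablePred q) : ComputablePred fun a => p a ∧ q a := by
  obtain ⟨f, hf, hf'⟩ := comp_decide hp
  obtain ⟨g, hg, hg'⟩ := comp_decide hq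
  refine compPred_of (f := fun a => f a && g a) (Primrec.and.to_comp.comp hf hg) fun a => ?_
  rw [Bool.and_eq_true, hf', hg']

private theorem cp_not {α : Type*} [Primcodable α] {p : α → Prop} (hp : ComputablePred p) :
    ComputablePred fun a => ¬ p a := by
  obtain ⟨f, hf, hf'⟩ := comp_decide hp
  refine compPred_of (f := fun a => !(f a)) (Primrec.not.to_comp.comp hf) fun a => ?_
  rw [Bool.not_eq_true', ← hf', Bool.not_eq_true]

private theorem cp_imp {α : Type*} [Primcodable α] {p q : α → Prop} (hp : ComputablePred p)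
    (hq : ComputablePred q) : ComputablePred fun a => p a → q a := by
  obtain ⟨f, hf, hf'⟩ := comp_decide hp
  obtain ⟨g, hg, hg'⟩ := comp_decide hq
  refine compPred_of (f := fun a => (!(f a)) || g a)
    (Primrec.or.to_comp.comp (Primrec.not.to_comp.comp hf) hg) fun a => ?_
  rw [Bool.or_eq_true, hg', Bool.not_eq_true', ← hf']
  cases f a <;> simp

private theorem cp_comp {α β : Type*} [Primcodable α] [Primcodable β] {p : β → Prop}
    (hp : ComputablePred p) {f : α → β} (hf : Computable f) : ComputablePred fun a => p (f a) := by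
  obtain ⟨g, hg, hg'⟩ := comp_decide hp
  exact compPred_of (f := fun a => g (f a)) (hg.comp hf) fun a => hg' _

/-- Truth in `K` of a computable formula at a computable list. -/
theorem ev_comp (hK : CompStr K) {α : Type*} [Primcodable α] {f : α → Fml} {g : α → List ℕ}
    (hf : Computable f) (hg : Computable g) : ComputablePred fun a => Ev K (f a) (g a) :=
  cp_comp (p := fun p : Fml × List ℕ => Ev K p.1 p.2) hK (f := fun a => (f a, g a)) (hf.pair hg)

theorem nv_comp (k : ℕ) : Computable fun p : St => nv k p :=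
  Computable.succ.comp (Primrec.nat_add.to_comp.comp (Computable.const k)
    (Computable.list_length.comp Computable.snd))

theorem nxt_comp : Computable nxt :=
  (Computable.ofNat Fml).comp (Computable.list_length.comp Computable.snd)

theorem chi_comp : Computable₂ chi :=
  (exs_primrec.to_comp.comp (Computable.pair Computable.fst
    (Computable.pair (Computable.succ.comp Computable.snd)
      ((Computable.ofNat Fml).comp Computable.snd))) :
    Computable fun p : ℕ × ℕ => exs p.1 (p.2 + 1) (Denumerable.ofNat Fml p.2))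

theorem rs_comp : Computable fun p : ℕ × ℕ × Fml => rs p.1 p.2.1 p.2.2 :=
  exs_primrec.to_comp.comp (Computable.pair Computable.fst
    (Computable.pair (Primrec.nat_sub.to_comp.comp (Computable.fst.comp Computable.snd)
      Computable.fst) (Computable.snd.comp Computable.snd)))

private theorem rs_comp3 {α : Type*} [Primcodable α] {m M : α → ℕ} {f : α → Fml}
    (hm : Computable m) (hM : Computable M) (hf : Computable f) :
    Computable fun a => rs (m a) (M a) (f a) :=
  rs_comp.comp (f := fun p : ℕ × ℕ × Fml => rs p.1 p.2.1 p.2.2) (g := fun a => (m a, M a, f a))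
    (hm.pair (hM.pair hf))

private theorem con_comp (hK : CompStr K) {α : Type*} [Primcodable α] {M : α → ℕ} {f : α → Fml}
    (hM : Computable M) (hf : Computable f) : ComputablePred fun a => Con K Z (M a) (f a) :=
  ev_comp hK (f := fun a => rs Z.length (M a) (f a)) (g := fun _ => Z)
    (rs_comp3 (Computable.const Z.length) hM hf) (Computable.const Z)

private theorem and_comp {α : Type*} [Primcodable α] {f g : α → Fml} (hf : Computable f)
    (hg : Computable g) : Computable fun a => (f a).and (g a) :=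
  and_primrec.to_comp.comp hf hg

private theorem neg_comp {α : Type*} [Primcodable α] {f : α → Fml} (hf : Computable f) :
    Computable fun a => (f a).neg :=
  neg_primrec.to_comp.comp hf

theorem und_comp (hK : CompStr K) : ComputablePred fun p : St => Und K Z p :=
  cp_and (con_comp hK (nv_comp _) (and_comp Computable.fst nxt_comp))
    (con_comp hK (nv_comp _) (and_comp Computable.fst (neg_comp nxt_comp)))

theorem val_comp (hK : CompStr K) : ComputablePred fun p : St => Val K Z p := by
  refine cp_and ?_ (con_comp hK (nv_comp _) Computable.fst)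
  obtain ⟨D, hD⟩ := fv_lt_primrec
  exact cp_comp (p := fun p : Fml × ℕ => ∀ i ∈ p.1.fv, i < p.2) ⟨D, hD.to_comp⟩
    (f := fun p : St => (p.1, nv Z.length p)) (Computable.fst.pair (nv_comp _))

theorem bit_comp (hK : CompStr K) : Computable fun p : St => bit K Z p := by
  obtain ⟨f, hf, hf'⟩ := comp_decide (con_comp (Z := Z) hK (nv_comp Z.length)
    (and_comp Computable.fst nxt_comp))
  refine hf.of_eq fun p => ?_
  unfold bit
  rw [Bool.eq_iff_iff, hf', decide_eq_true_iff]

theorem hk_comp : Computable fun p : Bool × Fml × ℕ => hk p.1 p.2.1 p.2.2 := by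
  have h1 : Primrec fun p : Bool × Fml × ℕ => exParts p.2.1 :=
    exParts_primrec.comp (Primrec.fst.comp Primrec.snd)
  have h2 : Primrec₂ fun (p : Bool × Fml × ℕ) (q : ℕ × Fml) =>
      Fml.ex q.1 ((Fml.eq q.1 p.2.2).and q.2) :=
    ex_primrec.comp (Primrec.fst.comp Primrec.snd)
      (and_primrec.comp (eq_primrec.comp (Primrec.fst.comp Primrec.snd)
        (Primrec.snd.comp (Primrec.snd.comp Primrec.fst))) (Primrec.snd.comp Primrec.snd))
  have h3 : Primrec fun p : Bool × Fml × ℕ =>
      (Option.casesOn (exParts p.2.1) top fun q => Fml.ex q.1 ((Fml.eq q.1 p.2.2).and q.2) : Fml) :=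
    Primrec.option_casesOn h1 (Primrec.const top) h2
  refine (Primrec.cond Primrec.fst h3 (Primrec.const top)).to_comp.of_eq ?_
  rintro ⟨b, ψ, w⟩
  cases b <;> cases ψ <;> rfl

theorem good_comp (hK : CompStr K) :
    ComputablePred fun q : St × ℕ × ℕ × List ℕ => Good K Z q.1 q.2.1 q.2.2.1 q.2.2.2 := by
  have hnv : Computable fun q : St × ℕ × ℕ × List ℕ => nv Z.length q.1 :=
    (nv_comp Z.length).comp Computable.fst
  have hd : Computable fun q : St × ℕ × ℕ × List ℕ => q.1.1 := Computable.fst.comp Computable.fst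
  have hm : Computable fun q : St × ℕ × ℕ × List ℕ => q.2.1 := Computable.fst.comp Computable.snd
  have hc : Computable fun q : St × ℕ × ℕ × List ℕ => q.2.2.1 :=
    Computable.fst.comp (Computable.snd.comp Computable.snd)
  have hE : Computable fun q : St × ℕ × ℕ × List ℕ => q.2.2.2 :=
    Computable.snd.comp (Computable.snd.comp Computable.snd)
  have hchi : Computable fun q : St × ℕ × ℕ × List ℕ => chi q.2.1 q.2.2.1 := chi_comp.comp hm hc
  have hlt : ComputablePred fun p : ℕ × ℕ => p.1 < p.2 :=
    compPred_of (f := fun p : ℕ × ℕ => decide (p.1 < p.2)) Primrec.nat_lt.decide.to_comp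
      fun p => by simp
  have hle : ComputablePred fun p : ℕ × ℕ => p.1 ≤ p.2 :=
    compPred_of (f := fun p : ℕ × ℕ => decide (p.1 ≤ p.2)) Primrec.nat_le.decide.to_comp
      fun p => by simp
  have heq : ComputablePred fun p : ℕ × ℕ => p.1 = p.2 :=
    compPred_of (f := fun p : ℕ × ℕ => decide (p.1 = p.2)) Primrec.eq.decide.to_comp
      fun p => by simp
  have hfree : ∀ f : (St × ℕ × ℕ × List ℕ) × ℕ → Fml, Computable f →
      ComputablePred fun q : (St × ℕ × ℕ × List ℕ) × ℕ =>
        Free K Z (nv Z.length q.1.1) q.2 q.1.1.1 (f q) := by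
    intro f hf
    have hnv' : Computable fun q : (St × ℕ × ℕ × List ℕ) × ℕ => nv Z.length q.1.1 :=
      hnv.comp Computable.fst
    have hd' : Computable fun q : (St × ℕ × ℕ × List ℕ) × ℕ => q.1.1.1 := hd.comp Computable.fst
    have h1 : Computable fun q : (St × ℕ × ℕ × List ℕ) × ℕ =>
        rs q.2 (nv Z.length q.1.1) q.1.1.1 := rs_comp3 Computable.snd hnv' hd'
    have h2 : Computable fun q : (St × ℕ × ℕ × List ℕ) × ℕ =>
        rs q.2 (nv Z.length q.1.1) (q.1.1.1.and (f q)) :=
      rs_comp3 Computable.snd hnv' (and_comp hd' hf)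
    have h3 : Computable fun q : (St × ℕ × ℕ × List ℕ) × ℕ =>
        (rs q.2 (nv Z.length q.1.1) q.1.1.1).and
          (rs q.2 (nv Z.length q.1.1) (q.1.1.1.and (f q))).neg := and_comp h1 (neg_comp h2)
    have h4 : ComputablePred fun q : (St × ℕ × ℕ × List ℕ) × ℕ => Con K Z q.2
        ((rs q.2 (nv Z.length q.1.1) q.1.1.1).and
          (rs q.2 (nv Z.length q.1.1) (q.1.1.1.and (f q))).neg) :=
      con_comp (Z := Z) hK (M := fun q : (St × ℕ × ℕ × List ℕ) × ℕ => q.2) Computable.snd h3
    exact cp_not h4
  have hchi' : Computable fun q : (St × ℕ × ℕ × List ℕ) × ℕ => chi q.1.2.1 q.1.2.2.1 :=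
    hchi.comp Computable.fst
  have hbody : ComputablePred fun q : (St × ℕ × ℕ × List ℕ) × ℕ => Z.length < q.2 →
      Free K Z (nv Z.length q.1.1) q.2 q.1.1.1 (chi q.1.2.1 q.1.2.2.1) ∧
      Free K Z (nv Z.length q.1.1) q.2 q.1.1.1 (chi q.1.2.1 q.1.2.2.1).neg := by
    have h1 : ComputablePred fun q : (St × ℕ × ℕ × List ℕ) × ℕ => Z.length < q.2 :=
      cp_comp hlt (f := fun q : (St × ℕ × ℕ × List ℕ) × ℕ => (Z.length, q.2))
        ((Computable.const _).pair Computable.snd)
    have h2 := hfree _ hchi'
    have h3 := hfree _ (neg_comp hchi')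
    exact cp_imp h1 (cp_and h2 h3)
  have hall : ComputablePred fun q : St × ℕ × ℕ × List ℕ => ∀ m' < q.2.1, Z.length < m' →
      Free K Z (nv Z.length q.1) m' q.1.1 (chi q.2.1 q.2.2.1) ∧
      Free K Z (nv Z.length q.1) m' q.1.1 (chi q.2.1 q.2.2.1).neg := by
    obtain ⟨f, hf, hf'⟩ := comp_decide hbody
    have hf2 : Computable₂ fun (q : St × ℕ × ℕ × List ℕ) (m' : ℕ) => f (q, m') := hf
    refine compPred_of (ball_comp hf2 hm) fun q => ?_
    rw [List.all_eq_true]
    constructor
    · intro h m' hm'
      exact (hf' (q, m')).1 (h m' (List.mem_range.2 hm'))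
    · intro h m' hm'
      exact (hf' (q, m')).2 (h m' (List.mem_range.1 hm'))
  have c1 : ComputablePred fun q : St × ℕ × ℕ × List ℕ => Z.length < q.2.1 :=
    cp_comp hlt (f := fun q : St × ℕ × ℕ × List ℕ => (Z.length, q.2.1))
      ((Computable.const _).pair hm)
  have c2 : ComputablePred fun q : St × ℕ × ℕ × List ℕ => q.2.1 ≤ nv Z.length q.1 :=
    cp_comp hle (f := fun q : St × ℕ × ℕ × List ℕ => (q.2.1, nv Z.length q.1)) (hm.pair hnv)
  have c3 : ComputablePred fun q : St × ℕ × ℕ × List ℕ =>
      Con K Z (nv Z.length q.1) (q.1.1.and (chi q.2.1 q.2.2.1)) :=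
    con_comp hK hnv (and_comp hd hchi)
  have c4 : ComputablePred fun q : St × ℕ × ℕ × List ℕ =>
      Con K Z (nv Z.length q.1) (q.1.1.and (chi q.2.1 q.2.2.1).neg) :=
    con_comp hK hnv (and_comp hd (neg_comp hchi))
  have c5 : ComputablePred fun q : St × ℕ × ℕ × List ℕ => q.2.2.2.length = q.2.1 :=
    cp_comp heq (f := fun q : St × ℕ × ℕ × List ℕ => (q.2.2.2.length, q.2.1))
      ((Computable.list_length.comp hE).pair hm)
  have c6 : ComputablePred fun q : St × ℕ × ℕ × List ℕ =>
      Ev K (rs q.2.1 (nv Z.length q.1) q.1.1) q.2.2.2 := ev_comp hK (rs_comp3 hm hnv hd) hE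
  exact cp_and (cp_and c1 c2) (cp_and (cp_and c3 c4) (cp_and hall (cp_and c5 c6)))

end Pool.Agent.H97.EM.Gr
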