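import Pool.Agent.H97.EM.Gr.Len

/-! Greedy construction: the parts of a given level are constant from some stage on. -/

namespace Pool.Agent.H97.EM.Gr

open Pool.Agent.H97.EM Classical

variable {K : Str} {Z : List ℕ} {T : Set Fml} {p : St}

private theorem ext_app {v : List ℕ} (a : ℕ) {j : ℕ} (hj : j < v.length) :
    ext (v ++ [a]) j = ext v j := by
  unfold ext
  rw [List.getD_append _ _ _ _ hj, List.getD_eq_getElem _ _ hj, List.getD_eq_getElem _ _ hj]

private theorem ext_last (v : List ℕ) (a : ℕ) : ext (v ++ [a]) v.length = a := by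
  unfold ext
  rw [List.getD_append_right _ _ _ _ le_rfl, Nat.sub_self]
  rfl

private theorem hk_sol {b : Bool} {ψ : Fml} {v : List ℕ} (hψ : ∀ i ∈ ψ.fv, i < v.length)
    (hb : ∀ i φ, ψ = .ex i φ → i ≠ v.length) (h : Sat K (lit b ψ) (ext v)) :
    ∃ a, Ev K (hk b ψ v.length) (v ++ [a]) := by
  cases b with
  | false => exact ⟨0, sat_top K _⟩
  | true =>
    cases ψ with
    | eq i j => exact ⟨0, sat_top K _⟩
    | rel r l => exact ⟨0, sat_top K _⟩
    | neg φ => exact ⟨0, sat_top K _⟩
    | and φ φ' => exact ⟨0, sat_top K _⟩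
    | ex i φ =>
      have h' : ∃ a, Sat K φ (Function.update (ext v) i a) := h
      obtain ⟨a, ha⟩ := h'
      have hi := hb i φ rfl
      refine ⟨a, ?_⟩
      change ∃ a', (Function.update (ext (v ++ [a])) i a' i =
        Function.update (ext (v ++ [a])) i a' v.length) ∧
        Sat K φ (Function.update (ext (v ++ [a])) i a')
      refine ⟨a, ?_, ?_⟩
      · rw [Function.update_self, Function.update_of_ne (Ne.symm hi), ext_last]
      · refine (sat_congr K φ _ _ fun j hj => ?_).1 ha
        by_cases hji : j = i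
        · subst hji
          rw [Function.update_self, Function.update_self]
        · rw [Function.update_of_ne hji, Function.update_of_ne hji]
          refine (ext_app a (hψ j ?_)).symm
          exact Finset.mem_erase.2 ⟨hji, hj⟩

/-- A decision affects no level: a solution of `p.1` over `Z` satisfies the decided literal and
has a witness for the Henkin formula. -/
theorem same_dec (hZ : Z ≠ []) (hv : Val K Z p) (hu : ¬ Und K Z p) {m : ℕ}
    (hm : Z.length < m) (hm' : m ≤ nv Z.length p) {w : List ℕ} (hw : w.length = m - Z.length)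
    (h : Ev K (rs m (nv Z.length p) p.1) (Z ++ w)) :
    Ev K (rs m (nv Z.length (step K Z p)) (step K Z p).1) (Z ++ w) := by
  have hM : nv Z.length p = Z.length + p.2.length + 1 := rfl
  have hcode : Encodable.encode (nxt p) = p.2.length := Denumerable.encode_ofNat _
  have hψ : ∀ i ∈ (nxt p).fv, i < nv Z.length p := by
    intro i hi
    have := fv_le _ i hi
    omega
  have hst : step K Z p = ((p.1.and (lit (bit K Z p) (nxt p))).and
      (hk (bit K Z p) (nxt p) (nv Z.length p)), p.2 ++ [bit K Z p]) := by
    unfold step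
    rw [if_neg hu]
  have hn : nv Z.length (step K Z p) = nv Z.length p + 1 := by
    rw [hst]
    simp only [nv, List.length_append, List.length_singleton]
    omega
  have hl : (Z ++ w).length = m := by
    rw [List.length_append, hw]
    omega
  have hne : Z ++ w ≠ [] := by
    intro h0
    rw [h0, List.length_nil] at hl
    omega
  rw [← hl, ev_rs hne, hl] at h
  obtain ⟨u, hu1, hu2⟩ := h
  have hlen : (Z ++ w ++ u).length = nv Z.length p := by
    rw [List.length_append, hl, hu1]
    omega
  have hwu : (w ++ u).length = nv Z.length p - Z.length := by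
    rw [List.length_append] at hlen ⊢
    rw [hl] at hlen
    omega
  have hlit : Sat K (lit (bit K Z p) (nxt p)) (ext (Z ++ w ++ u)) := by
    rw [List.append_assoc]
    rw [List.append_assoc] at hu2
    by_cases hc : Con K Z (nv Z.length p) (p.1.and (nxt p))
    · have hb : bit K Z p = true := decide_eq_true hc
      rw [hb]
      by_contra hn1
      refine hu ⟨hc, ?_⟩
      rw [con_iff hZ]
      exact ⟨w ++ u, hwu, hu2, hn1⟩
    · have hb : bit K Z p = false := decide_eq_false hc
      rw [hb]
      rw [con_iff hZ] at hc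
      exact fun h3 => hc ⟨w ++ u, hwu, hu2, h3⟩
  have h3 := hk_sol (K := K) (b := bit K Z p) (ψ := nxt p) (v := Z ++ w ++ u)
    (fun i hi => by rw [hlen]; exact hψ i hi) (by
      intro i φ he
      rw [hlen]
      have h4 : Encodable.encode (nxt p) = 5 * Nat.pair i (Encodable.encode φ) + 4 := by
        rw [he]
        rfl
      have h5 := Nat.left_le_pair i (Encodable.encode φ)
      omega) hlit
  obtain ⟨a, ha⟩ := h3
  rw [hlen] at ha
  rw [hn]
  have hgoal : Ev K (rs (Z ++ w).length (nv Z.length p + 1) (step K Z p).1) (Z ++ w) := by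
    rw [ev_rs hne]
    refine ⟨u ++ [a], ?_, ?_⟩
    · rw [List.length_append, List.length_singleton, hu1, hl]
      omega
    · rw [← List.append_assoc, hst]
      have h6 : Ev K (p.1.and (lit (bit K Z p) (nxt p))) (Z ++ w ++ u ++ [a]) := by
        rw [ev_append]
        · exact ⟨hu2, hlit⟩
        · intro i hi
          have h : i ∈ p.1.fv ∪ (lit (bit K Z p) (nxt p)).fv := hi
          rw [Finset.mem_union, fv_lit] at h
          rw [hlen]
          rcases h with h | h
          · exact hv.1 i h
          · exact hψ i h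
      exact ⟨h6, ha⟩
  rw [hl] at hgoal
  exact hgoal

/-- An action does not affect the lower levels (the `Free` part of goodness). -/
theorem same_act (hZ : Z ≠ []) (hv : Val K Z p) (hu : Und K Z p) {m : ℕ}
    (hm : Z.length < m) (hm' : m < (srch K Z p).1) {w : List ℕ} (hw : w.length = m - Z.length)
    (h : Ev K (rs m (nv Z.length p) p.1) (Z ++ w)) :
    Ev K (rs m (nv Z.length (step K Z p)) (step K Z p).1) (Z ++ w) := by
  have hst : step K Z p = (act K p.1 (srch K Z p), p.2) := by
    unfold step
    rw [if_pos hu]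
  have hn : nv Z.length (step K Z p) = nv Z.length p := by
    rw [hst]
    rfl
  obtain ⟨-, -, hf, -, -⟩ := srch_good (exists_good hZ hv hu)
  obtain ⟨hf1, hf2⟩ := hf m hm' hm
  have key : ∀ χ : Fml, Free K Z (nv Z.length p) m p.1 χ →
      Ev K (rs m (nv Z.length p) (p.1.and χ)) (Z ++ w) := by
    intro χ hχ
    by_contra hc
    refine hχ ?_
    rw [con_iff hZ]
    exact ⟨w, hw, h, hc⟩
  rw [hn, hst]
  change Ev K (rs m (nv Z.length p) (p.1.and
    (lit (!decide (Ev K (chi (srch K Z p).1 (srch K Z p).2.1) (srch K Z p).2.2))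
      (chi (srch K Z p).1 (srch K Z p).2.1)))) (Z ++ w)
  cases (!decide (Ev K (chi (srch K Z p).1 (srch K Z p).2.1) (srch K Z p).2.2))
  · exact key _ hf2
  · exact key _ hf1

/-- Take `s₁` such that `m ≤ nv ..` and no action of a level at most `m` takes place from `s₁`
on. -/
theorem const (hT : ∀ φ ∈ T, φ.fv = ∅) (hK : IsModel K T) (hf : Full T K) (hZ : Z ≠ [])
    {m : ℕ} (hm : Z.length < m) : ∃ s₁, ∀ s, s₁ ≤ s → ∀ w : List ℕ, w.length = m - Z.length →
      Ev K (rs m (nv Z.length (run K Z s₁)) (run K Z s₁).1) (Z ++ w) →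
      Ev K (rs m (nv Z.length (run K Z s)) (run K Z s).1) (Z ++ w) := by
  obtain ⟨s₀, hs₀⟩ := act_fin_le hT hK hf hZ m
  obtain ⟨s₂, hs₂⟩ := len_unbounded hT hK hf hZ m
  have hnv : ∀ s, s₂ ≤ s → m ≤ nv Z.length (run K Z s) := by
    intro s hs
    refine le_trans ?_ (nv_mono hs)
    unfold nv
    omega
  refine ⟨max s₀ s₂, fun s hs w hw h => ?_⟩
  induction s, hs using Nat.le_induction with
  | base => exact h
  | succ s hs ih =>
    have h0 : s₀ ≤ s := le_trans (le_max_left _ _) hs
    have h2 : s₂ ≤ s := le_trans (le_max_right _ _) hs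
    have hr : run K Z (s + 1) = step K Z (run K Z s) := rfl
    rw [hr]
    by_cases hu : Und K Z (run K Z s)
    · refine same_act hZ (val_run hZ s) hu hm ?_ hw ih
      by_contra hlt
      exact hs₀ s h0 (srch K Z (run K Z s)).1 (not_lt.1 hlt) ⟨hu, rfl⟩
    · exact same_dec hZ (val_run hZ s) hu hm (hnv s h2) hw ih

end Pool.Agent.H97.EM.Gr
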