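import Pool.Agent.H97.EM.TE

/-!
Greedy construction of a decidable atomic model over a tuple `Z` of a decidable model `K` which
realises all types: definitions. `k = Z.length`; the variables `x_0, .., x_(k-1)` stand for `Z`.
A state is a formula `δ` together with the list `σ` of the decisions about the formulas number
`0, .., σ.length - 1`; the variables in use are those below `nv k σ`.
-/

namespace Pool.Agent.H97.EM.Gr

open Pool.Agent.H97.EM Classical

/-- States. -/
abbrev St := Fml × List Bool

/-- The number of the variables in use. -/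
def nv (k : ℕ) (p : St) : ℕ := k + p.2.length + 1

/-- The part of `δ` (variables below `M`) which speaks about `x_0, .., x_(m-1)`. -/
def rs (m M : ℕ) (δ : Fml) : Fml := exs m (M - m) δ

/-- The formula `δ` (variables below `M`) is satisfiable over `Z`. -/
def Con (K : Str) (Z : List ℕ) (M : ℕ) (δ : Fml) : Prop := Ev K (rs Z.length M δ) Z

/-- The formula to be decided. -/
def nxt (p : St) : Fml := Denumerable.ofNat Fml p.2.length

/-- The formulas on `x_0, .., x_(m-1)`, up to equivalence. -/
def chi (m c : ℕ) : Fml := exs m (c + 1) (Denumerable.ofNat Fml c)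

/-- `δ` does not decide the next formula. -/
def Und (K : Str) (Z : List ℕ) (p : St) : Prop :=
  Con K Z (nv Z.length p) (p.1.and (nxt p)) ∧ Con K Z (nv Z.length p) (p.1.and (nxt p).neg)

/-- Adding `lit b χ` to `δ` does not affect the level `m'`. -/
def Free (K : Str) (Z : List ℕ) (M m' : ℕ) (δ χ : Fml) : Prop :=
  ¬ Con K Z m' ((rs m' M δ).and (rs m' M (δ.and χ)).neg)

/-- The triple `(m, c, E)` is good: `chi m c` is not decided by `δ`, the choice of the sign does
not affect the levels below `m`, and `E` satisfies the part of `δ` of level `m`. -/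
def Good (K : Str) (Z : List ℕ) (p : St) (m c : ℕ) (E : List ℕ) : Prop :=
  (Z.length < m ∧ m ≤ nv Z.length p) ∧
  (Con K Z (nv Z.length p) (p.1.and (chi m c)) ∧
    Con K Z (nv Z.length p) (p.1.and (chi m c).neg)) ∧
  (∀ m' < m, Z.length < m' →
    Free K Z (nv Z.length p) m' p.1 (chi m c) ∧ Free K Z (nv Z.length p) m' p.1 (chi m c).neg) ∧
  E.length = m ∧ Ev K (rs m (nv Z.length p) p.1) E

/-- The least code of a good triple, if there is one. -/
noncomputable def srch (K : Str) (Z : List ℕ) (p : St) : ℕ × ℕ × List ℕ :=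
  if h : ∃ n, Good K Z p (Denumerable.ofNat (ℕ × ℕ × List ℕ) n).1
      (Denumerable.ofNat (ℕ × ℕ × List ℕ) n).2.1 (Denumerable.ofNat (ℕ × ℕ × List ℕ) n).2.2
  then Denumerable.ofNat (ℕ × ℕ × List ℕ) (Nat.find h) else (0, 0, [])

/-- The Henkin formula with the new variable `x_w`. -/
def hk (b : Bool) (ψ : Fml) (w : ℕ) : Fml :=
  match b, ψ with
  | true, .ex i φ => .ex i (.and (.eq i w) φ)
  | _, _ => top

/-- The new formula in an action: the sign of `chi m c` is chosen such that it fails at `E`. -/
noncomputable def act (K : Str) (δ : Fml) (t : ℕ × ℕ × List ℕ) : Fml :=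
  δ.and (lit (!decide (Ev K (chi t.1 t.2.1) t.2.2)) (chi t.1 t.2.1))

/-- The sign of a decision. -/
noncomputable def bit (K : Str) (Z : List ℕ) (p : St) : Bool :=
  decide (Con K Z (nv Z.length p) (p.1.and (nxt p)))

/-- One step. -/
noncomputable def step (K : Str) (Z : List ℕ) (p : St) : St :=
  if Und K Z p then (act K p.1 (srch K Z p), p.2)
  else ((p.1.and (lit (bit K Z p) (nxt p))).and (hk (bit K Z p) (nxt p) (nv Z.length p)),
    p.2 ++ [bit K Z p])

/-- The run. -/
noncomputable def run (K : Str) (Z : List ℕ) : ℕ → St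
  | 0 => (top, [])
  | s + 1 => step K Z (run K Z s)

/-- Valid states. -/
def Val (K : Str) (Z : List ℕ) (p : St) : Prop :=
  (∀ i ∈ p.1.fv, i < nv Z.length p) ∧ Con K Z (nv Z.length p) p.1

/-- The limit. -/
def Gam (K : Str) (Z : List ℕ) : Set Fml :=
  {φ | ∃ s, Encodable.encode φ < (run K Z s).2.length ∧
    (run K Z s).2.getD (Encodable.encode φ) false = true}

end Pool.Agent.H97.EM.Gr
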