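import Pool.Agent.H97.EM.Gr.Bas

/-! Greedy construction: existence of good triples. -/

namespace Pool.Agent.H97.EM.Gr

open Pool.Agent.H97.EM Classical

variable {K : Str} {Z : List ℕ} {p : St}

/-- One descending step: the failure of `Free` at a level gives a new undecided formula there. -/
private theorem descend (hZ : Z ≠ []) (hv : Val K Z p) {m m' : ℕ} {χ : Fml}
    (hχ : ∀ i ∈ χ.fv, i < m) (hm : m ≤ nv Z.length p) (hmm : m' < m) (hk : Z.length < m')
    (h1 : Con K Z (nv Z.length p) (p.1.and χ))
    (h2 : Con K Z m' ((rs m' (nv Z.length p) p.1).and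
      (rs m' (nv Z.length p) (p.1.and χ)).neg)) :
    Con K Z (nv Z.length p) (p.1.and (chi m' (Encodable.encode (p.1.and χ)))) ∧
    Con K Z (nv Z.length p) (p.1.and (chi m' (Encodable.encode (p.1.and χ))).neg) := by
  have hθ : ∀ i ∈ (p.1.and χ).fv, i < nv Z.length p := by
    intro i hi
    simp only [Fml.fv, Finset.mem_union] at hi
    rcases hi with hi | hi
    · exact hv.1 i hi
    · exact Nat.lt_of_lt_of_le (hχ i hi) hm
  constructor
  · rw [con_iff hZ] at h1 ⊢
    obtain ⟨w, hw, h⟩ := h1
    exact ⟨w, hw, h.1, (chi_rs hθ _).2 (sat_rs_of_sat m' _ h)⟩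
  · rw [con_iff hZ] at h2 ⊢
    obtain ⟨w, hw, h3, h4⟩ := h2
    have hl : (Z ++ w).length = m' := by rw [List.length_append]; omega
    have hne : Z ++ w ≠ [] := by
      intro h0
      rw [h0, List.length_nil] at hl
      omega
    have h5 := ev_rs (K := K) hne (nv Z.length p) p.1
    rw [hl] at h5
    obtain ⟨w', hw', h6⟩ := h5.1 h3
    have h10 : (w ++ w').length = nv Z.length p - Z.length := by
      clear h6 h5 h3 h4
      rw [List.length_append, hw, hw']
      omega
    refine ⟨w ++ w', h10, ?_, ?_⟩
    · rw [← List.append_assoc]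
      exact h6
    · intro h7
      apply h4
      have h8 := (chi_rs hθ _).1 h7
      rw [← List.append_assoc] at h8
      have h9 := ev_append (K := K) (φ := rs m' (nv Z.length p) (p.1.and χ)) (v := Z ++ w)
        (by rw [hl]; exact fv_rs hθ m') w'
      exact h9.1 h8

/-- Descending argument (strong induction on `m`). If both signs of `χ = chi m c` are consistent
but `(m, c)` is not good then there are `k < m' < m` and a sign such that, with
`θ = p.1.and (lit b χ)`, the formula `rs m' M p.1 ∧ ¬ rs m' M θ` is consistent; continue with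
`m'` and the code of `θ` (`chi_rs`). If `(m, c)` is good then the first `m` entries of
a solution of `p.1` over `Z` are the list `E`. -/
theorem exists_good_of (hZ : Z ≠ []) (hv : Val K Z p) : ∀ m c : ℕ, Z.length < m →
    m ≤ nv Z.length p → Con K Z (nv Z.length p) (p.1.and (chi m c)) →
    Con K Z (nv Z.length p) (p.1.and (chi m c).neg) → ∃ m c E, Good K Z p m c E := by
  intro m
  induction m using Nat.strong_induction_on with
  | _ m ih =>
    intro c hm1 hm2 hc1 hc2
    by_cases hF : ∀ m' < m, Z.length < m' →
        Free K Z (nv Z.length p) m' p.1 (chi m c) ∧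
          Free K Z (nv Z.length p) m' p.1 (chi m c).neg
    · obtain ⟨w, hw, h⟩ := (con_iff hZ _ _).1 hv.2
      have hl : (Z ++ w).length = nv Z.length p := by
        rw [List.length_append]
        unfold nv at hw ⊢
        omega
      refine ⟨m, c, (Z ++ w).take m, ⟨hm1, hm2⟩, ⟨hc1, hc2⟩, hF, ?_, ?_⟩
      · rw [List.length_take]
        omega
      · exact rs_of_ev hv.1 (by omega) hl.ge (by omega) h
    · push Not at hF
      obtain ⟨m', hm', hk, h⟩ := hF
      by_cases h1 : Free K Z (nv Z.length p) m' p.1 (chi m c)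
      · have h2 := h h1
        unfold Free at h2
        rw [not_not] at h2
        obtain ⟨h3, h4⟩ := descend hZ hv (χ := (chi m c).neg) (fv_chi m c) hm2 hm' hk hc2 h2
        exact ih m' hm' _ hk (by omega) h3 h4
      · unfold Free at h1
        rw [not_not] at h1
        obtain ⟨h3, h4⟩ := descend hZ hv (χ := chi m c) (fv_chi m c) hm2 hm' hk hc1 h1
        exact ih m' hm' _ hk (by omega) h3 h4

/-- Start with `m = nv Z.length p` and `c = p.2.length` (`chi_self`; the variables of the
formula with the number `c` are at most `c` by `fv_le`). -/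
theorem exists_good (hZ : Z ≠ []) (hv : Val K Z p) (hu : Und K Z p) :
    ∃ m c E, Good K Z p m c E := by
  have he : Encodable.encode (nxt p) = p.2.length := by
    unfold nxt
    exact Denumerable.encode_ofNat _
  have hf : ∀ i ∈ (nxt p).fv, i < nv Z.length p := by
    intro i hi
    have := fv_le _ i hi
    rw [he] at this
    unfold nv
    omega
  obtain ⟨h1, h2⟩ := hu
  rw [con_iff hZ] at h1 h2
  refine exists_good_of hZ hv (nv Z.length p) (Encodable.encode (nxt p))
    (by unfold nv; omega) le_rfl ?_ ?_
  · rw [con_iff hZ]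
    obtain ⟨w, hw, h3, h4⟩ := h1
    exact ⟨w, hw, h3, (chi_self hf _).2 h4⟩
  · rw [con_iff hZ]
    obtain ⟨w, hw, h3, h4⟩ := h2
    exact ⟨w, hw, h3, fun h5 => h4 ((chi_self hf _).1 h5)⟩

end Pool.Agent.H97.EM.Gr
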