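import Pool.Agent.H97.EM.Gr.Mon
import Pool.Agent.H97.EM.Ka3

/-! Greedy construction: every level acts finitely often. -/

namespace Pool.Agent.H97.EM.Gr

open Pool.Agent.H97.EM Classical

variable {K : Str} {Z : List ℕ} {T : Set Fml}

/-- There is an action of level `m` at stage `s`. -/
def Act (K : Str) (Z : List ℕ) (s m : ℕ) : Prop :=
  Und K Z (run K Z s) ∧ (srch K Z (run K Z s)).1 = m

/-- The list of an action is killed. -/
theorem killed (hZ : Z ≠ []) {s m : ℕ} (h : Act K Z s m) :
    ¬ Ev K (rs m (nv Z.length (run K Z (s + 1))) (run K Z (s + 1)).1)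
      (srch K Z (run K Z s)).2.2 := by
  obtain ⟨hu, rfl⟩ := h
  have hg := srch_good (exists_good hZ (val_run hZ s) hu)
  have h1 : run K Z (s + 1) = (act K (run K Z s).1 (srch K Z (run K Z s)), (run K Z s).2) := by
    have h2 : run K Z (s + 1) = step K Z (run K Z s) := rfl
    rw [h2]
    unfold step
    rw [if_pos hu]
  rw [h1]
  generalize srch K Z (run K Z s) = t at hg
  obtain ⟨m, c, E⟩ := t
  obtain ⟨⟨hm, -⟩, -, -, hE, -⟩ := hg
  simp only at hm hE ⊢
  intro hev
  have hE0 : E ≠ [] := by
    intro h0
    rw [h0, List.length_nil] at hE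
    omega
  rw [← hE, ev_rs hE0] at hev
  obtain ⟨w, -, hw⟩ := hev
  have h3 := hw.2
  rw [sat_lit] at h3
  simp only at h3
  have h4 : Sat K (chi E.length c) (ext (E ++ w)) ↔ Ev K (chi E.length c) E :=
    ev_append (fv_chi _ _) w
  rw [h4] at h3
  simp at h3

/-- `Full.realize` for the formulas `rs m (nv ..) (run K Z s).1`; `hfin`: at stage `s` there is
a solution of `(run K Z s).1` over `Z`, extend it if it is shorter than `m` (`rs_of_ev`,
`run_imp`, `nv_mono`). -/
theorem immortal (hT : ∀ φ ∈ T, φ.fv = ∅) (hK : IsModel K T) (hf : Full T K) (hZ : Z ≠ [])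
    {m : ℕ} (hm : Z.length < m) : ∃ E : List ℕ, E.length = m ∧
      ∀ s, Ev K (rs m (nv Z.length (run K Z s)) (run K Z s).1) E := by
  obtain ⟨E, hE1, -, hE2⟩ := Full.realize hT hK hf hZ (m - Z.length)
    (fun s => rs m (nv Z.length (run K Z s)) (run K Z s).1) (fun s i hi => by
      have h1 := fv_rs (val_run hZ s).1 m i hi
      omega) (fun s => by
      obtain ⟨w0, hw0, hev⟩ := (con_iff (K := K) hZ _ _).1 (val_run (K := K) hZ s).2
      have hl : (Z ++ w0).length = nv Z.length (run K Z s) := by
        rw [List.length_append, hw0]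
        unfold nv
        omega
      have hev2 : Ev K (run K Z s).1 ((Z ++ w0) ++ List.replicate m 0) :=
        (ev_append (by rw [hl]; exact (val_run hZ s).1) _).2 hev
      refine ⟨(w0 ++ List.replicate m 0).take (m - Z.length), ?_, fun t ht => ?_⟩
      · rw [List.length_take, List.length_append, List.length_replicate]
        omega
      · have h1 : Ev K (run K Z t).1 ((Z ++ w0) ++ List.replicate m 0) := run_imp ht hev2
        have h2 : nv Z.length (run K Z t) ≤ ((Z ++ w0) ++ List.replicate m 0).length := by
          rw [List.length_append, hl]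
          have := nv_mono (K := K) (Z := Z) ht
          omega
        have h3 : m ≤ ((Z ++ w0) ++ List.replicate m 0).length := by
          rw [List.length_append, List.length_replicate]
          omega
        have h4 := rs_of_ev (val_run hZ t).1 (by omega : 0 < m) h2 h3 h1
        have h5 : ((Z ++ w0) ++ List.replicate m 0).take m =
            Z ++ (w0 ++ List.replicate m 0).take (m - Z.length) := by
          rw [List.append_assoc, List.take_append, List.take_of_length_le (by omega)]
        rw [h5] at h4
        exact h4)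
  exact ⟨E, by omega, hE2⟩

/-- The codes of the lists of the actions of level `m` are different (`killed`, `rs_anti`,
goodness) and at most the code of the immortal list (`srch_least`). -/
theorem act_fin (hT : ∀ φ ∈ T, φ.fv = ∅) (hK : IsModel K T) (hf : Full T K) (hZ : Z ≠ [])
    (m : ℕ) : ∃ s₀, ∀ s, s₀ ≤ s → ¬ Act K Z s m := by
  by_cases hm : Z.length < m
  · obtain ⟨E, hE, hev⟩ := immortal hT hK hf hZ hm
    have hfin : {s | Act K Z s m}.Finite := by
      refine Set.Finite.of_injOn (f := fun s => Encodable.encode (srch K Z (run K Z s)).2.2)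
        (t := Set.Iic (Encodable.encode E)) ?_ ?_ (Set.finite_Iic _)
      · intro s hs
        have hs' : Act K Z s m := hs
        obtain ⟨hu, h1⟩ := hs'
        refine srch_least (exists_good hZ (val_run hZ s) hu) (by rw [h1, hE]) ?_
        rw [h1]
        exact hev s
      · have key : ∀ s t, s < t → Act K Z s m → Act K Z t m →
            Encodable.encode (srch K Z (run K Z s)).2.2 ≠
              Encodable.encode (srch K Z (run K Z t)).2.2 := by
          intro s t hst hs ht heq
          have h1 : (srch K Z (run K Z s)).2.2 = (srch K Z (run K Z t)).2.2 :=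
            Encodable.encode_injective heq
          have hg := srch_good (exists_good hZ (val_run hZ t) ht.1)
          obtain ⟨-, -, -, h2, h3⟩ := hg
          rw [ht.2] at h2 h3
          refine killed hZ hs ?_
          rw [h1]
          exact rs_anti hZ (by omega : s + 1 ≤ t) (by omega) h2 h3
        intro s hs t ht heq
        by_contra hne
        rcases Nat.lt_or_gt_of_ne hne with h1 | h1
        · exact key s t h1 hs ht heq
        · exact key t s h1 ht hs heq.symm
    obtain ⟨s₀, hs₀⟩ := hfin.bddAbove
    refine ⟨s₀ + 1, fun s hs h => ?_⟩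
    have h1 := hs₀ h
    omega
  · refine ⟨0, fun s _ h => ?_⟩
    have hg := srch_good (exists_good hZ (val_run hZ s) h.1)
    have h1 := hg.1.1
    rw [h.2] at h1
    exact hm h1

/-- Uniformly for the levels up to a bound. -/
theorem act_fin_le (hT : ∀ φ ∈ T, φ.fv = ∅) (hK : IsModel K T) (hf : Full T K) (hZ : Z ≠ [])
    (n : ℕ) : ∃ s₀, ∀ s, s₀ ≤ s → ∀ m ≤ n, ¬ Act K Z s m := by
  induction n with
  | zero =>
    obtain ⟨s₀, h⟩ := act_fin hT hK hf hZ 0
    refine ⟨s₀, fun s hs m hm => ?_⟩
    rw [Nat.le_zero.1 hm]
    exact h s hs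
  | succ n ih =>
    obtain ⟨s₀, h⟩ := act_fin hT hK hf hZ (n + 1)
    obtain ⟨s₁, h1⟩ := ih
    refine ⟨max s₀ s₁, fun s hs m hm => ?_⟩
    rcases Nat.lt_or_ge n m with h2 | h2
    · have h3 : m = n + 1 := by omega
      rw [h3]
      exact h s (le_trans (le_max_left _ _) hs)
    · exact h1 s (le_trans (le_max_right _ _) hs) m h2

end Pool.Agent.H97.EM.Gr
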