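import Pool.Agent.H97.EM.Gr.Exg

/-! Greedy construction: all states are valid. -/

namespace Pool.Agent.H97.EM.Gr

open Pool.Agent.H97.EM Classical

variable {K : Str} {Z : List ℕ} {p : St}

private theorem ex_code (h : ∃ m c E, Good K Z p m c E) :
    ∃ n, Good K Z p (Denumerable.ofNat (ℕ × ℕ × List ℕ) n).1
      (Denumerable.ofNat (ℕ × ℕ × List ℕ) n).2.1 (Denumerable.ofNat (ℕ × ℕ × List ℕ) n).2.2 := by
  obtain ⟨m, c, E, hg⟩ := h
  refine ⟨Encodable.encode ((m, c, E) : ℕ × ℕ × List ℕ), ?_⟩
  rw [Denumerable.ofNat_encode]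
  exact hg

theorem srch_good (h : ∃ m c E, Good K Z p m c E) :
    Good K Z p (srch K Z p).1 (srch K Z p).2.1 (srch K Z p).2.2 := by
  have h' := ex_code h
  have he : srch K Z p = Denumerable.ofNat (ℕ × ℕ × List ℕ) (Nat.find h') := dif_pos h'
  rw [he]
  exact Nat.find_spec h'

/-- The list is the least one which satisfies the part of `δ` of its level
(`Nat.find_min'`, the code of the triple is `Nat.pair m (Nat.pair c (encode E))`). -/
theorem srch_least (h : ∃ m c E, Good K Z p m c E) {E : List ℕ}
    (hE : E.length = (srch K Z p).1)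
    (hev : Ev K (rs (srch K Z p).1 (nv Z.length p) p.1) E) :
    Encodable.encode (srch K Z p).2.2 ≤ Encodable.encode E := by
  have h' := ex_code h
  have he : srch K Z p = Denumerable.ofNat (ℕ × ℕ × List ℕ) (Nat.find h') := dif_pos h'
  obtain ⟨h1, h2, h3, -, -⟩ := srch_good h
  have hg : Good K Z p (srch K Z p).1 (srch K Z p).2.1 E := ⟨h1, h2, h3, hE, hev⟩
  have hle : Nat.find h' ≤
      Encodable.encode (((srch K Z p).1, (srch K Z p).2.1, E) : ℕ × ℕ × List ℕ) := by
    refine Nat.find_min' h' ?_
    rw [Denumerable.ofNat_encode]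
    exact hg
  have hf : Nat.find h' = Encodable.encode (srch K Z p) := by
    rw [he, Denumerable.encode_ofNat]
  rw [hf] at hle
  have e1 : Encodable.encode (srch K Z p) = Nat.pair (srch K Z p).1
      (Nat.pair (srch K Z p).2.1 (Encodable.encode (srch K Z p).2.2)) := rfl
  have e2 : Encodable.encode (((srch K Z p).1, (srch K Z p).2.1, E) : ℕ × ℕ × List ℕ) =
      Nat.pair (srch K Z p).1 (Nat.pair (srch K Z p).2.1 (Encodable.encode E)) := rfl
  rw [e1, e2] at hle
  by_contra hlt
  have h4 := Nat.pair_lt_pair_right (srch K Z p).1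
    (Nat.pair_lt_pair_right (srch K Z p).2.1 (not_le.1 hlt))
  omega

theorem val_init (hZ : Z ≠ []) : Val K Z (top, []) := by
  refine ⟨?_, ?_⟩
  · intro i hi
    have h : i ∈ ({0, 0} : Finset ℕ) := hi
    simp only [Finset.mem_insert, Finset.mem_singleton, or_self] at h
    simp only [nv]
    omega
  · rw [con_iff hZ]
    exact ⟨List.replicate _ 0, List.length_replicate, sat_top K _⟩

/-- Action: by goodness both signs are consistent. -/
theorem val_act (hZ : Z ≠ []) (hv : Val K Z p) (hu : Und K Z p) :
    Val K Z (act K p.1 (srch K Z p), p.2) := by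
  obtain ⟨h1, h2, -, -, -⟩ := srch_good (exists_good hZ hv hu)
  have hn : nv Z.length (act K p.1 (srch K Z p), p.2) = nv Z.length p := rfl
  refine ⟨?_, ?_⟩
  · intro i hi
    rw [hn]
    have h : i ∈ p.1.fv ∪ (lit (!decide (Ev K (chi (srch K Z p).1 (srch K Z p).2.1)
      (srch K Z p).2.2)) (chi (srch K Z p).1 (srch K Z p).2.1)).fv := hi
    rw [Finset.mem_union, fv_lit] at h
    rcases h with h | h
    · exact hv.1 i h
    · exact lt_of_lt_of_le (fv_chi _ _ i h) h1.2
  · rw [hn]
    unfold act
    cases hb : (!decide (Ev K (chi (srch K Z p).1 (srch K Z p).2.1) (srch K Z p).2.2))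
    · exact h2.2
    · exact h2.1

private theorem ext_app {v : List ℕ} (a : ℕ) {j : ℕ} (hj : j < v.length) :
    ext (v ++ [a]) j = ext v j := by
  unfold ext
  rw [List.getD_append _ _ _ _ hj, List.getD_eq_getElem _ _ hj, List.getD_eq_getElem _ _ hj]

private theorem ext_last (v : List ℕ) (a : ℕ) : ext (v ++ [a]) v.length = a := by
  unfold ext
  rw [List.getD_append_right _ _ _ _ le_rfl, Nat.sub_self]
  rfl

private theorem hk_sol {b : Bool} {ψ : Fml} {v : List ℕ} (hψ : ∀ i ∈ ψ.fv, i < v.length)
    (hb : ∀ i φ, ψ = .ex i φ → i ≠ v.length) (h : Sat K (lit b ψ) (ext v)) :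
    ∃ a, Ev K (hk b ψ v.length) (v ++ [a]) := by
  cases b with
  | false => exact ⟨0, sat_top K _⟩
  | true =>
    cases ψ with
    | eq i j => exact ⟨0, sat_top K _⟩
    | rel r l => exact ⟨0, sat_top K _⟩
    | neg φ => exact ⟨0, sat_top K _⟩
    | and φ φ' => exact ⟨0, sat_top K _⟩
    | ex i φ =>
      have h' : ∃ a, Sat K φ (Function.update (ext v) i a) := h
      obtain ⟨a, ha⟩ := h'
      have hi := hb i φ rfl
      refine ⟨a, ?_⟩
      change ∃ a', (Function.update (ext (v ++ [a])) i a' i =
        Function.update (ext (v ++ [a])) i a' v.length) ∧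
        Sat K φ (Function.update (ext (v ++ [a])) i a')
      refine ⟨a, ?_, ?_⟩
      · rw [Function.update_self, Function.update_of_ne (Ne.symm hi), ext_last]
      · refine (sat_congr K φ _ _ fun j hj => ?_).1 ha
        by_cases hji : j = i
        · subst hji
          rw [Function.update_self, Function.update_self]
        · rw [Function.update_of_ne hji, Function.update_of_ne hji]
          refine (ext_app a (hψ j ?_)).symm
          exact Finset.mem_erase.2 ⟨hji, hj⟩

private theorem fv_hk (b : Bool) (ψ : Fml) (w : ℕ) (hw : 0 < w) (hψ : ∀ i ∈ ψ.fv, i < w) :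
    ∀ i ∈ (hk b ψ w).fv, i < w + 1 := by
  have ht : ∀ i ∈ top.fv, i < w + 1 := by
    intro i hi
    have h : i ∈ ({0, 0} : Finset ℕ) := hi
    simp only [Finset.mem_insert, Finset.mem_singleton, or_self] at h
    omega
  cases b with
  | false => exact ht
  | true =>
    cases ψ with
    | eq i j => exact ht
    | rel r l => exact ht
    | neg φ => exact ht
    | and φ φ' => exact ht
    | ex i φ =>
      intro j hj
      have h : j ∈ (({i, w} : Finset ℕ) ∪ φ.fv).erase i := hj
      rw [Finset.mem_erase, Finset.mem_union, Finset.mem_insert, Finset.mem_singleton] at h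
      obtain ⟨h1, (h2 | h2) | h2⟩ := h
      · exact absurd h2 h1
      · omega
      · have := hψ j (Finset.mem_erase.2 ⟨h1, h2⟩)
        omega

/-- Decision: one of the signs is consistent; for the Henkin formula give the new variable
`x_M`, `M = nv Z.length p`, the value of a witness. -/
theorem val_dec (hZ : Z ≠ []) (hv : Val K Z p) (hu : ¬ Und K Z p) :
    Val K Z ((p.1.and (lit (bit K Z p) (nxt p))).and
      (hk (bit K Z p) (nxt p) (nv Z.length p)), p.2 ++ [bit K Z p]) := by
  have hM : nv Z.length p = Z.length + p.2.length + 1 := rfl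
  have hcode : Encodable.encode (nxt p) = p.2.length := Denumerable.encode_ofNat _
  have hψ : ∀ i ∈ (nxt p).fv, i < nv Z.length p := by
    intro i hi
    have := fv_le _ i hi
    omega
  have hn : nv Z.length ((p.1.and (lit (bit K Z p) (nxt p))).and
      (hk (bit K Z p) (nxt p) (nv Z.length p)), p.2 ++ [bit K Z p]) = nv Z.length p + 1 := by
    simp only [nv, List.length_append, List.length_singleton]
    omega
  refine ⟨?_, ?_⟩
  · intro i hi
    rw [hn]
    have h : i ∈ (p.1.fv ∪ (lit (bit K Z p) (nxt p)).fv) ∪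
      (hk (bit K Z p) (nxt p) (nv Z.length p)).fv := hi
    rw [Finset.mem_union, Finset.mem_union, fv_lit] at h
    rcases h with (h | h) | h
    · have := hv.1 i h
      omega
    · have := hψ i h
      omega
    · exact fv_hk _ _ _ (by omega) hψ i h
  · rw [hn]
    have hcon : Con K Z (nv Z.length p) (p.1.and (lit (bit K Z p) (nxt p))) := by
      by_cases hc : Con K Z (nv Z.length p) (p.1.and (nxt p))
      · have hb : bit K Z p = true := decide_eq_true hc
        rw [hb]
        exact hc
      · have hb : bit K Z p = false := decide_eq_false hc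
        rw [hb]
        have h1 := hv.2
        rw [con_iff hZ] at h1 hc ⊢
        obtain ⟨w, hw, h2⟩ := h1
        refine ⟨w, hw, h2, fun h3 => hc ⟨w, hw, h2, h3⟩⟩
    rw [con_iff hZ] at hcon ⊢
    obtain ⟨w, hw, h1, h2⟩ := hcon
    have hlen : (Z ++ w).length = nv Z.length p := by
      rw [List.length_append, hw]
      omega
    have h3 := hk_sol (K := K) (b := bit K Z p) (ψ := nxt p) (v := Z ++ w)
      (fun i hi => by rw [hlen]; exact hψ i hi) (by
        intro i φ he
        rw [hlen]
        have h4 : Encodable.encode (nxt p) = 5 * Nat.pair i (Encodable.encode φ) + 4 := by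
          rw [he]
          rfl
        have h5 := Nat.left_le_pair i (Encodable.encode φ)
        omega) h2
    obtain ⟨a, ha⟩ := h3
    rw [hlen] at ha
    refine ⟨w ++ [a], ?_, ?_⟩
    · rw [List.length_append, List.length_singleton, hw]
      omega
    · rw [← List.append_assoc]
      have h6 : Ev K (p.1.and (lit (bit K Z p) (nxt p))) (Z ++ w ++ [a]) := by
        rw [ev_append]
        · exact ⟨h1, h2⟩
        · intro i hi
          have h : i ∈ p.1.fv ∪ (lit (bit K Z p) (nxt p)).fv := hi
          rw [Finset.mem_union, fv_lit] at h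
          rw [hlen]
          rcases h with h | h
          · exact hv.1 i h
          · exact hψ i h
      exact ⟨h6, ha⟩

theorem val_step (hZ : Z ≠ []) (hv : Val K Z p) : Val K Z (step K Z p) := by
  unfold step
  split_ifs with hu
  · exact val_act hZ hv hu
  · exact val_dec hZ hv hu

theorem val_run (hZ : Z ≠ []) (s : ℕ) : Val K Z (run K Z s) := by
  induction s with
  | zero => exact val_init hZ
  | succ s ih => exact val_step hZ ih

end Pool.Agent.H97.EM.Gr
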