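import Pool.Agent.H97.EM.Gr.Inv

/-! Greedy construction: monotonicity. -/

namespace Pool.Agent.H97.EM.Gr

open Pool.Agent.H97.EM Classical

variable {K : Str} {Z : List ℕ}

theorem step_imp (p : St) (v : ℕ → ℕ) (h : Sat K (step K Z p).1 v) : Sat K p.1 v := by
  unfold step at h
  split_ifs at h with hu
  · exact h.1
  · exact h.1.1

private theorem step_prefix (p : St) : p.2 <+: (step K Z p).2 := by
  unfold step
  split_ifs with hu
  · exact List.prefix_rfl
  · exact List.prefix_append _ _

private theorem run_succ (s : ℕ) : run K Z (s + 1) = step K Z (run K Z s) := rfl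

theorem run_imp {s t : ℕ} (hst : s ≤ t) {v : ℕ → ℕ} (h : Sat K (run K Z t).1 v) :
    Sat K (run K Z s).1 v := by
  induction t, hst using Nat.le_induction with
  | base => exact h
  | succ t _ ih => exact ih (step_imp _ _ (by rw [run_succ] at h; exact h))

theorem run_prefix {s t : ℕ} (hst : s ≤ t) : (run K Z s).2 <+: (run K Z t).2 := by
  induction t, hst using Nat.le_induction with
  | base => exact List.prefix_rfl
  | succ t _ ih => exact ih.trans (by rw [run_succ]; exact step_prefix _)

theorem run_getD {s t c : ℕ} (hst : s ≤ t) (hc : c < (run K Z s).2.length) :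
    c < (run K Z t).2.length ∧
      (run K Z t).2.getD c false = (run K Z s).2.getD c false := by
  obtain ⟨r, hr⟩ := run_prefix (K := K) (Z := Z) hst
  rw [← hr]
  refine ⟨?_, ?_⟩
  · rw [List.length_append]
    omega
  · exact List.getD_append _ _ _ _ hc

theorem nv_mono {s t : ℕ} (hst : s ≤ t) :
    nv Z.length (run K Z s) ≤ nv Z.length (run K Z t) := by
  have h := (run_prefix (K := K) (Z := Z) hst).length_le
  unfold nv
  omega

/-- The parts of level `m` are decreasing (at all lists of length `m`). -/
theorem rs_anti (hZ : Z ≠ []) {s t m : ℕ} (hst : s ≤ t) (hm : 0 < m) {E : List ℕ}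
    (hE : E.length = m) (h : Ev K (rs m (nv Z.length (run K Z t)) (run K Z t).1) E) :
    Ev K (rs m (nv Z.length (run K Z s)) (run K Z s).1) E := by
  subst hE
  have hE0 : E ≠ [] := List.length_pos_iff.1 hm
  rw [ev_rs hE0] at h
  obtain ⟨w, hw, h1⟩ := h
  have h2 : Ev K (run K Z s).1 (E ++ w) := run_imp hst h1
  have h3 := nv_mono (K := K) (Z := Z) hst
  have hl : (E ++ w).length = E.length + w.length := List.length_append
  have h4 := rs_of_ev (val_run (K := K) hZ s).1 hm (v := E ++ w) (by omega) (by omega) h2
  rwa [List.take_left] at h4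

end Pool.Agent.H97.EM.Gr
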